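import Pool.Agent.Helper90.NIPn.PlaceCrit

/-!
Let `F` be an infinite field, `L` a finite extension (not necessarily separable) of the rational
function field `F(t)`, and suppose that there is an irreducible polynomial over `F` of degree
larger than `[L : F(t)]`. Then `L`, and every field `K` with a place onto `L`, has the
`n`-independence property for every `n`.
-/

set_option autoImplicit false

open Polynomial

namespace Pool.Agent.Results.MP_81481d_lc.FunctionFields

universe u

/-- Some ring formula has the `n`-independence property in `K`. -/
def HasIP (n : ℕ) (K : Type u) [Field K] [FirstOrder.Ring.CompatibleRing K] : Prop :=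
  ∃ (p q : ℕ) (φ : FirstOrder.Language.ring.Formula (Fin p ⊕ (Fin n × Fin q))),
    ∀ m : ℕ, ∃ b : Fin n → Fin m → Fin q → K, ∀ S : Set (Fin n → Fin m),
      ∃ a : Fin p → K, ∀ i : Fin n → Fin m,
        (φ.Realize (Sum.elim a (fun jl : Fin n × Fin q => b jl.1 (i jl.1) jl.2)) ↔ i ∈ S)

theorem result (F K L : Type u) [Field F] [Infinite F] [Field L] [Algebra (RatFunc F) L]
    [FiniteDimensional (RatFunc F) L] [Field K] [FirstOrder.Ring.CompatibleRing K]
    (W : ValuationSubring K) (π : W →+* L) (hπ : Function.Surjective π)
    (P : F[X]) (hP : Irreducible P) (hdeg : Module.finrank (RatFunc F) L < P.natDegree)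
    (n : ℕ) : HasIP n K :=
  Pool.Agent.H90NIP.ff_place_criterion F K L W π hπ n P hP hdeg

end Pool.Agent.Results.MP_81481d_lc.FunctionFields
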