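import Pool.Agent.Helper90.NIPn.PlaceCrit

/-!
Suppose that for every `m` the field `K` has a place onto a field `L` (a valuation ring `W` of
`K`, possibly `W = K`, and a surjection `W → L`), that `L` is a finite extension of a field `L0`
(not necessarily separable, and `L0 = L` is allowed), and that `L0` has `m` pairwise independent
valuation rings such that for each of them the residue field has an irreducible polynomial `P` of
degree at most `D` (with `D` not depending on `m`) and the value group is not `e`-divisible for
every `e` such that `deg P` divides `e * f` for some `1 ≤ f ≤ [L : L0]`. Then `K` has the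
`n`-independence property for every `n`.
-/

set_option autoImplicit false

open Polynomial

namespace Pool.Agent.Results.MP_81481d_lc.InertValuations

universe u

/-- The residue field of `O` has an irreducible polynomial `P` of degree at most `D`, and the
value group of `O` is not `e`-divisible for every `e ≥ 1` such that `deg P` divides `e * f` for
some `1 ≤ f ≤ N`. -/
def InertAt {L0 : Type u} [Field L0] (D N : ℕ) (O : ValuationSubring L0) : Prop :=
  ∃ P : (IsLocalRing.ResidueField O)[X], Irreducible P ∧ P.natDegree ≤ D ∧
    ∀ e f : ℕ, 1 ≤ e → 1 ≤ f → f ≤ N → P.natDegree ∣ e * f →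
      ∃ a : L0, ∀ w : L0, O.valuation a ≠ O.valuation w ^ e

/-- Some ring formula has the `n`-independence property in `K`. -/
def HasIP (n : ℕ) (K : Type u) [Field K] [FirstOrder.Ring.CompatibleRing K] : Prop :=
  ∃ (p q : ℕ) (φ : FirstOrder.Language.ring.Formula (Fin p ⊕ (Fin n × Fin q))),
    ∀ m : ℕ, ∃ b : Fin n → Fin m → Fin q → K, ∀ S : Set (Fin n → Fin m),
      ∃ a : Fin p → K, ∀ i : Fin n → Fin m,
        (φ.Realize (Sum.elim a (fun jl : Fin n × Fin q => b jl.1 (i jl.1) jl.2)) ↔ i ∈ S)

theorem result (K : Type u) [Field K] [FirstOrder.Ring.CompatibleRing K] (D : ℕ)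
    (h : ∀ m : ℕ, ∃ (L L0 : Type u) (_ : Field L) (_ : Field L0) (_ : Algebra L0 L)
      (_ : FiniteDimensional L0 L) (W : ValuationSubring K) (π : W →+* L)
      (_ : Function.Surjective π) (O : Fin m → ValuationSubring L0),
      (∀ i j, i ≠ j → O i ⊔ O j = ⊤) ∧ ∀ j, InertAt D (Module.finrank L0 L) (O j))
    (n : ℕ) : HasIP n K :=
  Pool.Agent.H90NIP.val_place_criterion K n D h

end Pool.Agent.Results.MP_81481d_lc.InertValuations
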