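import Pool.Agent.Helper90.NIPn.PAdic

/-!
Suppose that for every `m` the field `K` has a place onto a field `L` (a valuation ring `W` of
`K`, possibly `W = K`, and a surjection `W → L`) which has at least `m` different absolute values
induced by embeddings of `L` in the real numbers or in fields of `p`-adic numbers (the prime `p`
may vary). Then `K` has the `n`-independence property for every `n`.
-/

set_option autoImplicit false

namespace Pool.Agent.Results.MP_81481d_lc.ManyEmbeddings

universe u

/-- `f` is the absolute value induced by an embedding of `L` in `ℝ` or in some `ℚ_[p]`. -/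
def IsEmbAbs {L : Type u} [Field L] (f : L → ℝ) : Prop :=
  (∃ σ : L →+* ℝ, ∀ x, f x = |σ x|) ∨
    ∃ (p : ℕ) (_ : Fact p.Prime) (σ : L →+* ℚ_[p]), ∀ x, f x = ‖σ x‖

/-- Some ring formula has the `n`-independence property in `K`. -/
def HasIP (n : ℕ) (K : Type u) [Field K] [FirstOrder.Ring.CompatibleRing K] : Prop :=
  ∃ (p q : ℕ) (φ : FirstOrder.Language.ring.Formula (Fin p ⊕ (Fin n × Fin q))),
    ∀ m : ℕ, ∃ b : Fin n → Fin m → Fin q → K, ∀ S : Set (Fin n → Fin m),
      ∃ a : Fin p → K, ∀ i : Fin n → Fin m,
        (φ.Realize (Sum.elim a (fun jl : Fin n × Fin q => b jl.1 (i jl.1) jl.2)) ↔ i ∈ S)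

theorem result (K : Type u) [Field K] [FirstOrder.Ring.CompatibleRing K]
    (h : ∀ m : ℕ, ∃ (L : Type u) (_ : Field L) (W : ValuationSubring K) (π : W →+* L)
      (_ : Function.Surjective π) (f : Fin m → L → ℝ),
      Function.Injective f ∧ ∀ j, IsEmbAbs (f j))
    (n : ℕ) : HasIP n K :=
  Pool.Agent.H90NIP.emb_criterion n h

end Pool.Agent.Results.MP_81481d_lc.ManyEmbeddings
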