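import Pool.Agent.Helper90.NIPn.PlaceCrit

/-!
Suppose that for every `m` the field `K` has a place onto a field `L` (a valuation ring `W` of
`K`, possibly `W = K`, and a surjective ring homomorphism `W → L`), such that `L` carries `m`
pairwise independent generalised absolute values (multiplicative maps `w` to linearly ordered
groups with zero, with `w (x + y) ≤ C * max (w x) (w y)`; this includes Krull valuations,
absolute values of orderings, and real absolute values), each of which has a stable non-norm of
degree at most `D` (with `D` not depending on `m`): a monic polynomial and an element such that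
all nearby polynomials are irreducible and all nearby elements are not norms from the extensions
of `L` they define. Then `K` has the `n`-independence property for every `n`.
-/

set_option autoImplicit false

open Polynomial

namespace Pool.Agent.Results.MP_81481d_lc.PlaceCriterion

universe u v

section

variable {L : Type u} [Field L] {Γ Δ : Type v} [LinearOrderedCommGroupWithZero Γ]
  [LinearOrderedCommGroupWithZero Δ]

/-- A generalised absolute value: `w (x + y) ≤ C * max (w x) (w y)` for a constant `C`. -/
def IsAbs (w : L →*₀ Γ) : Prop := ∃ C : Γ, ∀ x y, w (x + y) ≤ C * max (w x) (w y)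

/-- `v` is independent of `w`. -/
def IndepOf (v : L →*₀ Γ) (w : L →*₀ Δ) : Prop :=
  ∀ (γ : Γ) (δ : Δ), δ ≠ 0 → ∃ x, γ < v x ∧ w x < δ

/-- The monic polynomial of degree `d` with coefficients `c`. -/
noncomputable def monicPoly {d : ℕ} (c : Fin d → L) : L[X] :=
  X ^ d + ∑ r : Fin d, C (c r) * X ^ (r : ℕ)

/-- There is a stable non-norm of degree `d` for `w`. -/
def StableNonNorm (w : L →*₀ Γ) (d : ℕ) : Prop :=
  ∃ (c : Fin d → L) (a : L) (ε : Γ), ε ≠ 0 ∧
    ∀ c' : Fin d → L, (∀ r, w (c' r - c r) ≤ ε) → Irreducible (monicPoly c') ∧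
      ∀ x : L, w (x - a) ≤ ε → ∀ z : AdjoinRoot (monicPoly c'), Algebra.norm L z ≠ x

end

/-- Some ring formula has the `n`-independence property in `K`. -/
def HasIP (n : ℕ) (K : Type u) [Field K] [FirstOrder.Ring.CompatibleRing K] : Prop :=
  ∃ (p q : ℕ) (φ : FirstOrder.Language.ring.Formula (Fin p ⊕ (Fin n × Fin q))),
    ∀ m : ℕ, ∃ b : Fin n → Fin m → Fin q → K, ∀ S : Set (Fin n → Fin m),
      ∃ a : Fin p → K, ∀ i : Fin n → Fin m,
        (φ.Realize (Sum.elim a (fun jl : Fin n × Fin q => b jl.1 (i jl.1) jl.2)) ↔ i ∈ S)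

theorem result (K : Type u) [Field K] [FirstOrder.Ring.CompatibleRing K] (D : ℕ)
    (h : ∀ m : ℕ, ∃ (L : Type u) (_ : Field L) (W : ValuationSubring K) (π : W →+* L)
      (_ : Function.Surjective π) (Γ : Fin m → Type v)
      (_ : ∀ j, LinearOrderedCommGroupWithZero (Γ j)) (w : ∀ j, L →*₀ Γ j),
        (∀ j, IsAbs (w j)) ∧ (∀ i j, i ≠ j → IndepOf (w i) (w j)) ∧
        ∀ j, ∃ d, 1 ≤ d ∧ d ≤ D ∧ StableNonNorm (w j) d)
    (n : ℕ) : HasIP n K :=
  Pool.Agent.H90NIP.gav_place_criterion K n D h

end Pool.Agent.Results.MP_81481d_lc.PlaceCriterion
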